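import Pool.Agent.helper3.T6.DefsH
import Pool.Agent.helper82.T5.SpecS

set_option autoImplicit false

/-!
# T6L (MP_16912e_nt): lower bound of the right order for the sum of `#Cl(D)[5] - 1`, `D < 0`

Interface statements between the blocks.  Page: /team-store/T6L_helper85.md
-/

namespace Pool.Agent.T6L

open Finset NumberField Pool.Agent.helper3.FT Pool.Agent.helper47.RA Pool.Agent.T5 Pool.Agent.T6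

/-- the tuples at scale `N` -/
structure Tn (N : ℝ) (t : Tpl) : Prop where
  tt : IsT t
  z1 : 1 < t.2.2.2
  z2 : (t.2.2.2 : ℝ) ≤ √N
  l1 : 0 < lam t
  l2 : (lam t : ℝ) ≤ √N
  d1 : N / 4 ≤ -(dis t : ℝ)
  d2 : -(dis t : ℝ) ≤ N

/-- no bad prime `≤ P`, and the conductor is prime to 30 -/
structure Fine (P : ℝ) (t : Tpl) : Prop where
  two : ¬ (2 : ℤ) ∣ dis t
  three : ¬ (9 : ℤ) ∣ dis t
  five : ¬ (25 : ℤ) ∣ dis t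
  gp : ∀ p : ℕ, p.Prime → (p : ℝ) ≤ P → (p : ℤ) ^ 2 ∣ dis t → ¬ (p : ℤ) ∣ t.2.2.2 * lam t

/-- **LBM** (blocks E and M): many tuples without bad primes `≤ ρ ^ (-1.05)` -/
def LBM_stmt : Prop := ∃ c ρ₀ : ℝ, 0 < c ∧ 0 < ρ₀ ∧ ∀ ρ : ℝ, 0 < ρ → ρ ≤ ρ₀ → ∃ N₀ : ℝ,
  ∀ N : ℝ, N₀ ≤ N → ∃ F : Finset Tpl, c * ρ * N ≤ (F.card : ℝ) ∧
    ∀ t ∈ F, Tn N t ∧ Fine (ρ ^ (-(1.05 : ℝ))) t

/-- **GT** (block O): large conductors, and conductors with a large prime -/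
def GT_stmt : Prop := ∃ C : ℝ, 1 ≤ C ∧ ∀ P : ℝ, 1 ≤ P → ∃ F₀ : ℕ, ∀ N : ℝ, 1 ≤ N →
  ∀ F : Finset Tpl, (∀ t ∈ F, Tn N t ∧ ∃ (f : ℕ) (D₀ : ℤ), IsFund D₀ ∧ dis t = D₀ * (f : ℤ) ^ 2 ∧
    (∀ p : ℕ, p.Prime → p ∣ f → 5 < p) ∧ (F₀ < f ∨ ∃ p : ℕ, p.Prime ∧ p ∣ f ∧ P < p)) →
  (F.card : ℝ) ≤ C * P ^ (-(0.98 : ℝ)) * N

open Classical in
/-- **GD** (block O): bounded conductors coprime to `Z Λ` -/
def GD_stmt : Prop := ∀ F₀ : ℕ, ∃ C N₀ : ℝ, 1 ≤ C ∧ ∀ h : ℤ → ℕ,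
  (∀ (K : Type) [Field K] [NumberField K], Module.finrank ℚ K = 2 →
    h (NumberField.discr K) = Nat.card {x : ClassGroup (𝓞 K) // x ^ 5 = 1}) →
  ∀ N : ℝ, N₀ ≤ N → ∀ F : Finset Tpl, (∀ t ∈ F, Tn N t ∧ ∃ (f : ℕ) (D₀ : ℤ), IsFund D₀ ∧
    dis t = D₀ * (f : ℤ) ^ 2 ∧ 1 ≤ f ∧ f ≤ F₀ ∧ IsCoprime (f : ℤ) (t.2.2.2 * lam t)) →
  (F.card : ℝ) ≤ C * ∑ D ∈ (Ico (-⌊N⌋) 0).filter IsFund, ((h D : ℝ) - 1)

open Classical in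
/-- **LB** (the target): the sum of `#Cl[5] - 1` over imaginary quadratic fields has order `N` -/
def LB_stmt : Prop := ∃ c N₀ : ℝ, 0 < c ∧ ∀ h : ℤ → ℕ,
  (∀ (K : Type) [Field K] [NumberField K], Module.finrank ℚ K = 2 →
    h (NumberField.discr K) = Nat.card {x : ClassGroup (𝓞 K) // x ^ 5 = 1}) →
  ∀ N : ℝ, N₀ ≤ N → c * N ≤ ∑ D ∈ (Ico (-⌊N⌋) 0).filter IsFund, ((h D : ℝ) - 1)

end Pool.Agent.T6L
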