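import Pool.Agent.helper85.T6L.Defs
import Pool.Agent.helper95.T6.SpecE

set_option autoImplicit false

/-! # T6L: `LBM_stmt` from block E -/

namespace Pool.Agent.T6L

open Finset NumberField Pool.Agent.helper3.FT Pool.Agent.helper47.RA Pool.Agent.T5 Pool.Agent.T6

theorem LBM_of (hGDT : GDT_stmt) (hEBX : EBX_stmt) (hEDI : EDI_stmt) : LBM_stmt := by
  obtain ⟨e₀, c₁, ρ₀, he1, he900, he16, hc1, hρ0, hρ1, H⟩ := hGDT
  obtain ⟨hD1, hD2⟩ := hEDI
  refine ⟨c₁, ρ₀, hc1, hρ0, fun ρ hρ hρle => ?_⟩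
  obtain ⟨N₀, HN⟩ := H ρ hρ hρle
  have hρ1' : ρ ≤ 1 := hρle.trans hρ1
  refine ⟨max N₀ ((2 / ρ) ^ 2), fun N hN => ?_⟩
  have hN0 : N₀ ≤ N := (le_max_left _ _).trans hN
  have hN1 : (2 / ρ) ^ 2 ≤ N := (le_max_right _ _).trans hN
  have h2ρ : 2 ≤ 2 / ρ := by
    rw [le_div_iff₀ hρ]
    nlinarith
  have hs : 2 / ρ ≤ √N := Real.le_sqrt_of_sq_le hN1
  have hs2 : 2 ≤ ρ * √N := by
    have := mul_le_mul_of_nonneg_left hs hρ.le
    rwa [mul_div_cancel₀ _ hρ.ne'] at this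
  have hs0 : 0 ≤ √N := Real.sqrt_nonneg _
  have hN1' : 1 ≤ N := by nlinarith
  obtain ⟨F, hF, hFc⟩ := HN N hN0
  refine ⟨F, by rw [mul_assoc]; exact hFc, fun t ht => ?_⟩
  obtain ⟨hB, hC, hnb⟩ := hF t ht
  obtain ⟨hCen, hlam⟩ := hEBX N (ρ * √N) (√N) t hN1' (by linarith) (by linarith) hB
  have hdd := hD1 e₀ t hCen.tt hC
  have h2 : ¬ (2 : ℤ) ∣ dis t := by
    have h16 : (16 : ℤ) ∣ dis t + 3 := dvd_trans (by exact_mod_cast he16) hdd
    omega
  have h900 : (900 : ℤ) ∣ dis t + 3 := dvd_trans (by exact_mod_cast he900) hdd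
  have hz := hB.z1
  have hz2 := hB.z2
  have hl1 := hCen.l1
  have hd1 := hCen.d1
  have hd2 := hCen.d2
  refine ⟨⟨hCen.tt, ?_, ?_, ?_, ?_, ?_, hd2⟩, ⟨h2, by omega, by omega, ?_⟩⟩
  · have : (1 : ℝ) < (t.2.2.2 : ℝ) := by linarith
    exact_mod_cast this
  · nlinarith
  · have : (0 : ℝ) < (lam t : ℝ) := by linarith
    exact_mod_cast this
  · linarith
  · linarith
  · intro p hp hpP hpd hpz
    have hp2 : 2 < p := by
      rcases lt_or_eq_of_le hp.two_le with h | h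
      · exact h
      · exfalso
        apply h2
        rw [← h] at hpd
        exact dvd_trans (by norm_num) hpd
    refine hnb p hp (hpP.trans ?_) (hD2 p t hp hp2 hCen.tt hpd hpz)
    apply Real.rpow_le_rpow_of_exponent_ge hρ hρ1'
    norm_num

end Pool.Agent.T6L
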